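import Pool.Agent.H45.EG3.S2

/-!
# EG3, row LM0: the second difference is positive
-/

set_option autoImplicit false

namespace Pool.EG3

open MvPolynomial Pool.EGH

namespace LM

variable {K : Type} [Field K]

/-- The points of a line. -/
theorem pt (p : Fin 3 → K) (hp : p ≠ 0) : ∃ b c : Fin 3 → K,
    ∀ α β : K, (α ≠ 0 ∨ β ≠ 0) → ∃ q : Fin 3 → K, q ≠ 0 ∧
      ∀ x : Fin 3 → K, ∑ i, x i * q i = 0 →
        ∃ s t : K, ∀ i, x i = s * p i + t * (α * b i + β * c i) := by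
  obtain ⟨b, c, hD⟩ : ∃ b c : Fin 3 → K,
      p 0 * (b 1 * c 2 - b 2 * c 1) - p 1 * (b 0 * c 2 - b 2 * c 0)
        + p 2 * (b 0 * c 1 - b 1 * c 0) ≠ 0 := by
    by_contra hcon
    push Not at hcon
    apply hp
    have h0 := hcon ![0, 1, 0] ![0, 0, 1]
    have h1 := hcon ![1, 0, 0] ![0, 0, 1]
    have h2 := hcon ![1, 0, 0] ![0, 1, 0]
    simp at h0 h1 h2
    funext i
    fin_cases i
    · exact h0
    · exact h1
    · exact h2
  refine ⟨b, c, fun α β hαβ => ?_⟩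
  set D : K := p 0 * (b 1 * c 2 - b 2 * c 1) - p 1 * (b 0 * c 2 - b 2 * c 0)
        + p 2 * (b 0 * c 1 - b 1 * c 0) with hDdef
  refine ⟨![p 1 * (α * b 2 + β * c 2) - p 2 * (α * b 1 + β * c 1),
    p 2 * (α * b 0 + β * c 0) - p 0 * (α * b 2 + β * c 2),
    p 0 * (α * b 1 + β * c 1) - p 1 * (α * b 0 + β * c 0)], ?_, ?_⟩
  · intro h
    have h0 := congrFun h 0
    have h1 := congrFun h 1
    have h2 := congrFun h 2
    simp at h0 h1 h2
    have hα : α * D = 0 := by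
      rw [hDdef]
      linear_combination c 0 * h0 + c 1 * h1 + c 2 * h2
    have hβ : β * D = 0 := by
      rw [hDdef]
      linear_combination -(b 0 * h0 + b 1 * h1 + b 2 * h2)
    rcases hαβ with h | h
    · exact (mul_ne_zero h hD) hα
    · exact (mul_ne_zero h hD) hβ
  · intro x hx
    simp [Fin.sum_univ_three] at hx
    set A : K := x 0 * (b 1 * c 2 - b 2 * c 1) - x 1 * (b 0 * c 2 - b 2 * c 0)
        + x 2 * (b 0 * c 1 - b 1 * c 0) with hA
    set B : K := p 0 * (x 1 * c 2 - x 2 * c 1) - p 1 * (x 0 * c 2 - x 2 * c 0)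
        + p 2 * (x 0 * c 1 - x 1 * c 0) with hB
    set C : K := p 0 * (b 1 * x 2 - b 2 * x 1) - p 1 * (b 0 * x 2 - b 2 * x 0)
        + p 2 * (b 0 * x 1 - b 1 * x 0) with hC
    have e : ∀ i, D * x i = A * p i + B * b i + C * c i := by
      intro i
      rw [hDdef, hA, hB, hC]
      fin_cases i <;> simp <;> ring
    have f : α * C = β * B := by
      rw [hB, hC]
      linear_combination hx
    rcases hαβ with h | h
    · refine ⟨A / D, B / α / D, fun i => ?_⟩
      have e' := e i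
      field_simp
      linear_combination α * e' - c i * (-f) + 0
    · refine ⟨A / D, C / β / D, fun i => ?_⟩
      have e' := e i
      field_simp
      linear_combination β * e' - b i * f

variable {U₀ U₁ U₂ : Type} [AddCommGroup U₀] [Module K U₀] [AddCommGroup U₁] [Module K U₁]
  [AddCommGroup U₂] [Module K U₂]

/-- The combination of the three maps. -/
def cb (X : Fin 3 → U₀ →ₗ[K] U₁) (p : Fin 3 → K) : U₀ →ₗ[K] U₁ := ∑ i, p i • X i

theorem cb_apply (X : Fin 3 → U₀ →ₗ[K] U₁) (p : Fin 3 → K) (u : U₀) :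
    cb X p u = ∑ i, p i • X i u := by
  simp [cb, LinearMap.sum_apply]

theorem cb_comm (X : Fin 3 → U₀ →ₗ[K] U₁) (Y : Fin 3 → U₁ →ₗ[K] U₂)
    (h : ∀ i j u, Y i (X j u) = Y j (X i u)) (p r : Fin 3 → K) (u : U₀) :
    cb Y p (cb X r u) = cb Y r (cb X p u) := by
  simp only [cb_apply, map_sum, map_smul, Finset.smul_sum]
  rw [Finset.sum_comm]
  refine Finset.sum_congr rfl fun j _ => Finset.sum_congr rfl fun i _ => ?_
  rw [h i j u, smul_comm]

theorem cb_lin (X : Fin 3 → U₀ →ₗ[K] U₁) (p b c : Fin 3 → K) (s t α β : K) (x : Fin 3 → K)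
    (hx : ∀ i, x i = s * p i + t * (α * b i + β * c i)) (u : U₀) :
    cb X x u = s • cb X p u + t • (α • cb X b u + β • cb X c u) := by
  simp only [cb_apply, Finset.smul_sum, ← Finset.sum_add_distrib]
  refine Finset.sum_congr rfl fun i _ => ?_
  rw [hx i]
  module

/-- The kernels. -/
theorem ker_lt [IsAlgClosed K] [Module.Finite K U₀] [Module.Finite K U₁]
    (hE : EV1Stmt) (X : Fin 3 → U₀ →ₗ[K] U₁) (Y : Fin 3 → U₁ →ₗ[K] U₂)
    (h : ∀ i j u, Y i (X j u) = Y j (X i u))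
    (hI : ∀ q : Fin 3 → K, q ≠ 0 → ∀ u : U₀,
      (∀ p : Fin 3 → K, ∑ i, p i * q i = 0 → ∑ i, p i • X i u = 0) → u = 0)
    (p : Fin 3 → K) (hp : p ≠ 0)
    (h0 : Module.finrank K (LinearMap.ker (cb X p)) ≠ 0) :
    Module.finrank K (LinearMap.ker (cb X p)) + 1 ≤
      Module.finrank K (LinearMap.ker (cb Y p)) := by
  by_contra hcon
  obtain ⟨b, c, hbc⟩ := pt p hp
  have hb : ∀ x ∈ LinearMap.ker (cb X p), cb X b x ∈ LinearMap.ker (cb Y p) := by
    intro x hx
    rw [LinearMap.mem_ker] at hx ⊢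
    rw [cb_comm X Y h, hx, map_zero]
  have hc : ∀ x ∈ LinearMap.ker (cb X p), cb X c x ∈ LinearMap.ker (cb Y p) := by
    intro x hx
    rw [LinearMap.mem_ker] at hx ⊢
    rw [cb_comm X Y h, hx, map_zero]
  obtain ⟨α, β, hαβ, v, hv, he⟩ := hE K (LinearMap.ker (cb X p)) (LinearMap.ker (cb Y p))
    ((cb X b).restrict hb) ((cb X c).restrict hc) (by omega) h0
  obtain ⟨q, hq, hq'⟩ := hbc α β hαβ
  apply hv
  apply Subtype.ext
  refine hI q hq _ fun x hx => ?_
  obtain ⟨s, t, hst⟩ := hq' x hx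
  rw [← cb_apply, cb_lin X p b c s t α β x hst]
  have h1 : cb X p (v : U₀) = 0 := v.2
  have h2 : α • cb X b (v : U₀) + β • cb X c (v : U₀) = 0 := by
    have := congrArg Subtype.val he
    simpa using this
  rw [h1, h2, smul_zero, smul_zero, add_zero]

/-- The cokernels. -/
theorem coker_lt [IsAlgClosed K] [Module.Finite K U₁] [Module.Finite K U₂]
    (hE : EV2Stmt) (X : Fin 3 → U₀ →ₗ[K] U₁) (Y : Fin 3 → U₁ →ₗ[K] U₂)
    (h : ∀ i j u, Y i (X j u) = Y j (X i u))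
    (hS : ∀ q : Fin 3 → K, q ≠ 0 → ∀ w : U₂, w ∈ Submodule.span K
      {w : U₂ | ∃ (p : Fin 3 → K) (u : U₁), ∑ i, p i * q i = 0 ∧ w = ∑ i, p i • Y i u})
    (p : Fin 3 → K) (hp : p ≠ 0)
    (h0 : Module.finrank K (U₂ ⧸ LinearMap.range (cb Y p)) ≠ 0) :
    Module.finrank K (U₂ ⧸ LinearMap.range (cb Y p)) + 1 ≤
      Module.finrank K (U₁ ⧸ LinearMap.range (cb X p)) := by
  by_contra hcon
  obtain ⟨b, c, hbc⟩ := pt p hp
  have hb : LinearMap.range (cb X p) ≤ (LinearMap.range (cb Y p)).comap (cb Y b) := by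
    rintro _ ⟨u, rfl⟩
    rw [Submodule.mem_comap, cb_comm X Y h]
    exact ⟨_, rfl⟩
  have hc : LinearMap.range (cb X p) ≤ (LinearMap.range (cb Y p)).comap (cb Y c) := by
    rintro _ ⟨u, rfl⟩
    rw [Submodule.mem_comap, cb_comm X Y h]
    exact ⟨_, rfl⟩
  obtain ⟨α, β, hαβ, w, he⟩ := hE K (U₁ ⧸ LinearMap.range (cb X p))
    (U₂ ⧸ LinearMap.range (cb Y p)) (Submodule.mapQ _ _ (cb Y b) hb)
    (Submodule.mapQ _ _ (cb Y c) hc) (by omega) h0
  obtain ⟨q, hq, hq'⟩ := hbc α β hαβ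
  obtain ⟨w', rfl⟩ := Submodule.Quotient.mk_surjective _ w
  have key : ∀ z ∈ Submodule.span K
      {w : U₂ | ∃ (p : Fin 3 → K) (u : U₁), ∑ i, p i * q i = 0 ∧ w = ∑ i, p i • Y i u},
      ∃ u u' : U₁, z = cb Y p u + (α • cb Y b u' + β • cb Y c u') := by
    intro z hz
    refine Submodule.span_induction ?_ ?_ ?_ ?_ hz
    · rintro z ⟨x, u, hx, rfl⟩
      obtain ⟨s, t, hst⟩ := hq' x hx
      refine ⟨s • u, t • u, ?_⟩
      rw [← cb_apply, cb_lin Y p b c s t α β x hst, map_smul, map_smul, map_smul]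
      module
    · exact ⟨0, 0, by simp⟩
    · rintro x y _ _ ⟨u, u', rfl⟩ ⟨w, w', rfl⟩
      refine ⟨u + w, u' + w', ?_⟩
      rw [map_add, map_add, map_add]
      module
    · rintro a x _ ⟨u, u', rfl⟩
      refine ⟨a • u, a • u', ?_⟩
      rw [map_smul, map_smul, map_smul]
      module
  obtain ⟨u, u', hu⟩ := key w' (hS q hq w')
  refine he (Submodule.Quotient.mk u') ?_
  rw [Submodule.mapQ_apply, Submodule.mapQ_apply, ← Submodule.Quotient.mk_smul,
    ← Submodule.Quotient.mk_smul, ← Submodule.Quotient.mk_add, Submodule.Quotient.eq, hu]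
  refine ⟨-u, ?_⟩
  rw [map_neg]
  abel

end LM

theorem t_lm0 (hE1 : EV1Stmt) (hE2 : EV2Stmt) : LM0Stmt := by
  intro K _ _ U₀ U₁ U₂ _ _ _ _ _ _ _ _ _ X Y h hI hS h1
  have hk : ∀ p : Fin 3 → K, p ≠ 0 →
      Module.finrank K (LinearMap.ker (LM.cb X p)) ≠ 0 →
      Module.finrank K (LinearMap.ker (LM.cb X p)) + 1 ≤
        Module.finrank K (LinearMap.ker (LM.cb Y p)) :=
    fun p hp h0 => LM.ker_lt hE1 X Y h hI p hp h0
  have hg : ∀ p : Fin 3 → K, p ≠ 0 →
      Module.finrank K (U₂ ⧸ LinearMap.range (LM.cb Y p)) ≠ 0 →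
      Module.finrank K (U₂ ⧸ LinearMap.range (LM.cb Y p)) + 1 ≤
        Module.finrank K (U₁ ⧸ LinearMap.range (LM.cb X p)) :=
    fun p hp h0 => LM.coker_lt hE2 X Y h hS p hp h0
  by_contra hcon
  have hall : ∀ p : Fin 3 → K, p ≠ 0 →
      Module.finrank K (LinearMap.ker (LM.cb X p)) = 0 ∧
        Module.finrank K U₁ ≤ Module.finrank K U₀ := by
    intro p hp
    have a1 := LinearMap.finrank_range_add_finrank_ker (LM.cb X p)
    have a2 := LinearMap.finrank_range_add_finrank_ker (LM.cb Y p)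
    have a3 := Submodule.finrank_quotient_add_finrank (LinearMap.range (LM.cb X p))
    have a4 := Submodule.finrank_quotient_add_finrank (LinearMap.range (LM.cb Y p))
    have a5 := hk p hp
    have a6 := hg p hp
    omega
  have h00 : (![1, 0, 0] : Fin 3 → K) ≠ 0 := by
    intro h
    have := congrFun h 0
    simp at this
  have hd := (hall _ h00).2
  obtain ⟨α, β, hαβ, v, hv, he⟩ := hE1 K U₀ U₁ (X 0) (X 1) hd (by omega)
  have hp : (![α, β, 0] : Fin 3 → K) ≠ 0 := by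
    intro h
    have e0 := congrFun h 0
    have e1 := congrFun h 1
    simp at e0 e1
    tauto
  have hz := (hall _ hp).1
  rw [Submodule.finrank_eq_zero, LinearMap.ker_eq_bot'] at hz
  apply hv
  apply hz
  rw [LM.cb_apply, Fin.sum_univ_three]
  simpa using he

end Pool.EG3
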