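import Pool.Agent.H45.EG3.S2

/-!
# EG3, row LMM: the second difference is at least two
-/

set_option autoImplicit false

namespace Pool.EG3

open MvPolynomial Pool.EGH

namespace LMM

/-- RES for arbitrary index types. -/
theorem res_types (hR : RESStmt) (K : Type) [Field K] [IsAlgClosed K] (I₀ I₁ I₂ : Type)
    [Fintype I₀] [Fintype I₁] [Fintype I₂] [DecidableEq I₀] [DecidableEq I₁] [DecidableEq I₂]
    (hc : Fintype.card I₁ = Fintype.card I₀ + Fintype.card I₂ + 1)
    (A : Matrix I₁ I₀ (PR K 3)) (B : Matrix I₂ I₁ (PR K 3)) (hBA : B * A = 0)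
    (hA : ∀ q : Fin 3 → K, q ≠ 0 → ∀ v : I₀ → K, (A.map (eval q)).mulVec v = 0 → v = 0)
    (hB : ∀ q : Fin 3 → K, q ≠ 0 → ∀ e : I₂ → K, ∃ v, (B.map (eval q)).mulVec v = e) :
    ∀ e : I₂ → PR K 3, ∃ w, B.mulVec w = e := by
  have e₀ : I₀ ≃ Fin (Fintype.card I₀) := Fintype.equivFin I₀
  have e₂ : I₂ ≃ Fin (Fintype.card I₂) := Fintype.equivFin I₂
  have e₁ : I₁ ≃ Fin (Fintype.card I₀ + Fintype.card I₂ + 1) :=
    (Fintype.equivFin I₁).trans (finCongr hc)
  have h := hR K (Fintype.card I₀) (Fintype.card I₂) (A.submatrix e₁.symm e₀.symm)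
    (B.submatrix e₂.symm e₁.symm) (by
      rw [Matrix.submatrix_mul_equiv, hBA]
      rfl) (by
      intro q hq v hv
      have h1 := hA q hq (v ∘ e₀) (by
        have h2 := congrArg (fun f => f ∘ e₁) hv
        funext i
        have h3 := congrFun h2 i
        simp only [Matrix.mulVec, dotProduct, Matrix.map_apply, Matrix.submatrix_apply,
          Function.comp, Equiv.symm_apply_apply, Pi.zero_apply] at h3 ⊢
        rw [← h3]
        exact Fintype.sum_equiv e₀ _ _ (fun x => by rw [Equiv.symm_apply_apply]))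
      funext i
      have h4 := congrFun h1 (e₀.symm i)
      simpa using h4) (by
      intro q hq e
      obtain ⟨v, hv⟩ := hB q hq (e ∘ e₂)
      refine ⟨v ∘ e₁.symm, ?_⟩
      funext i
      have h3 := congrFun hv (e₂.symm i)
      simp only [Matrix.mulVec, dotProduct, Matrix.map_apply, Matrix.submatrix_apply,
          Function.comp, Equiv.apply_symm_apply] at h3 ⊢
      rw [← h3]
      exact (Fintype.sum_equiv e₁ _ _ (fun x => by rw [Equiv.symm_apply_apply])).symm)
  intro e
  obtain ⟨w, hw⟩ := h (e ∘ e₂.symm)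
  refine ⟨w ∘ e₁, ?_⟩
  funext i
  have h3 := congrFun hw (e₂ i)
  simp only [Matrix.mulVec, dotProduct, Matrix.submatrix_apply,
          Function.comp, Equiv.symm_apply_apply] at h3 ⊢
  rw [← h3]
  exact Fintype.sum_equiv e₁ _ _ (fun x => by rw [Equiv.symm_apply_apply])

/-- The first matrix. -/
noncomputable def mA {K : Type} [Field K] {a b : ℕ} (M : Fin 3 → Matrix (Fin b) (Fin a) K) :
    Matrix (Fin 3 × Fin b) (Fin a) (PR K 3) :=
  fun kr s => C (M (kr.1 + 1) kr.2 s) * X (kr.1 + 2) - C (M (kr.1 + 2) kr.2 s) * X (kr.1 + 1)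

/-- The second matrix. -/
noncomputable def mB {K : Type} [Field K] {b c : ℕ} (N : Fin 3 → Matrix (Fin c) (Fin b) K) :
    Matrix (Fin b ⊕ Fin c) (Fin 3 × Fin b) (PR K 3) :=
  fun t kr => Sum.elim (fun r => if r = kr.2 then X kr.1 else 0)
    (fun t => C (N kr.1 t kr.2)) t

theorem mat (hR : RESStmt) {K : Type} [Field K] [IsAlgClosed K] (a b c : ℕ)
    (M : Fin 3 → Matrix (Fin b) (Fin a) K) (N : Fin 3 → Matrix (Fin c) (Fin b) K)
    (hcomm : ∀ i j, N i * M j = N j * M i)
    (hI : ∀ q : Fin 3 → K, q ≠ 0 → ∀ u : Fin a → K,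
      (∀ i j, q j • (M i).mulVec u = q i • (M j).mulVec u) → u = 0)
    (hS : ∀ q : Fin 3 → K, q ≠ 0 → ∀ w : Fin c → K, ∃ z : Fin 3 → Fin b → K,
      ∑ i, q i • z i = 0 ∧ ∑ i, (N i).mulVec (z i) = w)
    (hb : b ≠ 0) (hd : a + c + 1 = 2 * b) : False := by
  have key := res_types hR K (Fin a) (Fin 3 × Fin b) (Fin b ⊕ Fin c)
    (by simp; omega) (mA M) (mB N) ?_ ?_ ?_
  · obtain ⟨w, hw⟩ := key (Sum.elim (fun _ => 1) (fun _ => 0))
    have h0 := congrFun hw (Sum.inl ⟨0, Nat.pos_of_ne_zero hb⟩)
    simp only [Matrix.mulVec, dotProduct, mB, Sum.elim_inl] at h0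
    have h1 := congrArg (eval (0 : Fin 3 → K)) h0
    rw [map_sum, map_one] at h1
    rw [Finset.sum_eq_zero] at h1
    · exact zero_ne_one h1
    · intro i _
      rw [map_mul]
      split_ifs <;> simp
  · ext t s
    rw [Matrix.mul_apply, Fintype.sum_prod_type, Fin.sum_univ_three, Matrix.zero_apply]
    rcases t with r | t
    · simp only [mB, mA, Sum.elim_inl, ite_mul, zero_mul, Finset.sum_ite_eq, Finset.mem_univ,
        if_true]
      have e1 : (0 : Fin 3) + 1 = 1 := rfl
      have e2 : (0 : Fin 3) + 2 = 2 := rfl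
      have e3 : (1 : Fin 3) + 1 = 2 := rfl
      have e4 : (1 : Fin 3) + 2 = 0 := rfl
      have e5 : (2 : Fin 3) + 1 = 0 := rfl
      have e6 : (2 : Fin 3) + 2 = 1 := rfl
      rw [e1, e2, e3, e4, e5, e6]
      ring
    · simp only [mB, mA, Sum.elim_inr]
      have e1 : (0 : Fin 3) + 1 = 1 := rfl
      have e2 : (0 : Fin 3) + 2 = 2 := rfl
      have e3 : (1 : Fin 3) + 1 = 2 := rfl
      have e4 : (1 : Fin 3) + 2 = 0 := rfl
      have e5 : (2 : Fin 3) + 1 = 0 := rfl
      have e6 : (2 : Fin 3) + 2 = 1 := rfl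
      rw [e1, e2, e3, e4, e5, e6]
      have hmul : ∀ i j k l : Fin 3, ∑ x : Fin b, (C (N i t x) : PR K 3) *
          (C (M j x s) * X k - C (M l x s) * X j) =
          C ((N i * M j) t s) * X k - C ((N i * M l) t s) * X j := by
        intro i j k l
        rw [Matrix.mul_apply, Matrix.mul_apply, map_sum, map_sum, Finset.sum_mul,
          Finset.sum_mul, ← Finset.sum_sub_distrib]
        refine Finset.sum_congr rfl fun x _ => ?_
        rw [map_mul, map_mul]
        ring
      rw [hmul, hmul, hmul, hcomm 1 0, hcomm 2 0, hcomm 2 1]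
      ring
  · intro q hq v hv
    apply hI q hq
    have h0 : ∀ k : Fin 3, ∀ r, q (k + 2) * (M (k + 1)).mulVec v r =
        q (k + 1) * (M (k + 2)).mulVec v r := by
      intro k r
      have h1 := congrFun hv (k, r)
      simp only [Matrix.mulVec, dotProduct, mA, Matrix.map_apply, map_sub, map_mul, eval_C,
        eval_X, Pi.zero_apply] at h1 ⊢
      rw [Finset.mul_sum, Finset.mul_sum, ← sub_eq_zero, ← Finset.sum_sub_distrib, ← h1]
      refine Finset.sum_congr rfl fun x _ => ?_
      ring
    have g0 := h0 0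
    have g1 := h0 1
    have g2 := h0 2
    have e1 : (0 : Fin 3) + 1 = 1 := rfl
    have e2 : (0 : Fin 3) + 2 = 2 := rfl
    have e3 : (1 : Fin 3) + 1 = 2 := rfl
    have e4 : (1 : Fin 3) + 2 = 0 := rfl
    have e5 : (2 : Fin 3) + 1 = 0 := rfl
    have e6 : (2 : Fin 3) + 2 = 1 := rfl
    rw [e1, e2] at g0
    rw [e3, e4] at g1
    rw [e5, e6] at g2
    intro i j
    funext r
    simp only [Pi.smul_apply, smul_eq_mul]
    fin_cases i <;> fin_cases j <;>
      first
        | rfl
        | exact g0 r
        | exact (g0 r).symm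
        | exact g1 r
        | exact (g1 r).symm
        | exact g2 r
        | exact (g2 r).symm
  · intro q hq e
    obtain ⟨j, hj⟩ : ∃ j, q j ≠ 0 := by
      by_contra hcon
      push Not at hcon
      exact hq (funext hcon)
    obtain ⟨z, hz1, hz2⟩ := hS q hq ((fun t => e (Sum.inr t)) -
      (N j).mulVec (fun r => (q j)⁻¹ * e (Sum.inl r)))
    refine ⟨fun kr => z kr.1 kr.2 + if kr.1 = j then (q j)⁻¹ * e (Sum.inl kr.2) else 0, ?_⟩
    funext t
    simp only [Matrix.mulVec, dotProduct, Matrix.map_apply]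
    rw [Fintype.sum_prod_type]
    rcases t with r | t
    · simp only [mB, Sum.elim_inl]
      have h1 : ∀ k : Fin 3, ∑ x : Fin b, (eval q (if r = x then (X k : PR K 3) else 0)) *
          (z k x + if k = j then (q j)⁻¹ * e (Sum.inl x) else 0) =
          q k * z k r + if k = j then e (Sum.inl r) else 0 := by
        intro k
        rw [Finset.sum_eq_single r]
        · rw [if_pos rfl, eval_X]
          by_cases hk : k = j
          · subst hk
            rw [if_pos rfl, if_pos rfl]
            field_simp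
          · rw [if_neg hk, if_neg hk]
            ring
        · intro x _ hx
          rw [if_neg (Ne.symm hx), map_zero, zero_mul]
        · intro h
          exact absurd (Finset.mem_univ _) h
      rw [Finset.sum_congr rfl (fun k _ => h1 k), Finset.sum_add_distrib]
      have h2 := congrFun hz1 r
      simp only [Finset.sum_apply, Pi.smul_apply, smul_eq_mul, Pi.zero_apply] at h2
      rw [h2, zero_add]
      simp
    · simp only [mB, Sum.elim_inr, eval_C]
      have h2 := congrFun hz2 t
      simp only [Finset.sum_apply, Pi.sub_apply, Matrix.mulVec, dotProduct] at h2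
      have h1 : ∀ k : Fin 3, ∑ x : Fin b, N k t x *
          (z k x + if k = j then (q j)⁻¹ * e (Sum.inl x) else 0) =
          ∑ x : Fin b, N k t x * z k x +
            if k = j then ∑ x : Fin b, N k t x * ((q j)⁻¹ * e (Sum.inl x)) else 0 := by
        intro k
        by_cases hk : k = j
        · simp only [if_pos hk, mul_add, Finset.sum_add_distrib]
        · simp only [if_neg hk, add_zero]
      rw [Finset.sum_congr rfl (fun k _ => h1 k), Finset.sum_add_distrib, h2]
      simp

end LMM

theorem t_lmm (hL : LM0Stmt) (hR : RESStmt) : LMMStmt := by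
  intro K _ _ U₀ U₁ U₂ _ _ _ _ _ _ _ _ _ X Y h hI hS h1
  have h2 := hL K U₀ U₁ U₂ X Y h hI hS h1
  by_contra hcon
  let b₀ := Module.finBasis K U₀
  let b₁ := Module.finBasis K U₁
  let b₂ := Module.finBasis K U₂
  refine LMM.mat hR _ _ _ (fun i => LinearMap.toMatrix b₀ b₁ (X i))
    (fun i => LinearMap.toMatrix b₁ b₂ (Y i)) ?_ ?_ ?_ h1 (by omega)
  · intro i j
    rw [← LinearMap.toMatrix_comp, ← LinearMap.toMatrix_comp]
    congr 1
    ext u
    exact h i j u
  · intro q hq u hu
    have hu0 : b₀.equivFun.symm u = 0 := by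
      refine hI q hq _ fun p hp => ?_
      obtain ⟨j, hj⟩ : ∃ j, q j ≠ 0 := by
        by_contra hcon
        push Not at hcon
        exact hq (funext hcon)
      have hX : ∀ i, X i (b₀.equivFun.symm u) = (q i * (q j)⁻¹) • X j (b₀.equivFun.symm u) := by
        intro i
        apply b₁.equivFun.injective
        have e1 := hu i j
        have e2 : ∀ i, (LinearMap.toMatrix b₀ b₁ (X i)).mulVec u =
            b₁.equivFun (X i (b₀.equivFun.symm u)) := by
          intro i
          have e3 := LinearMap.toMatrix_mulVec_repr b₀ b₁ (X i) (b₀.equivFun.symm u)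
          have e4 : ⇑(b₀.repr (b₀.equivFun.symm u)) = u := by
            have := b₀.equivFun.apply_symm_apply u
            exact this
          rw [e4] at e3
          exact e3
        rw [e2, e2] at e1
        rw [map_smul, mul_comm, mul_smul, ← e1, smul_smul, inv_mul_cancel₀ hj, one_smul]
      rw [Finset.sum_congr rfl (fun i _ => by rw [hX i, smul_smul]), ← Finset.sum_smul]
      have : ∑ i, p i * (q i * (q j)⁻¹) = 0 := by
        rw [Finset.sum_congr rfl (fun i _ => by rw [← mul_assoc]), ← Finset.sum_mul, hp,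
          zero_mul]
      rw [this, zero_smul]
    have := congrArg b₀.equivFun hu0
    rw [LinearEquiv.apply_symm_apply, map_zero] at this
    exact this
  · intro q hq w
    have key : ∀ z ∈ Submodule.span K
        {w : U₂ | ∃ (p : Fin 3 → K) (u : U₁), ∑ i, p i * q i = 0 ∧ w = ∑ i, p i • Y i u},
        ∃ v : Fin 3 → U₁, ∑ i, q i • v i = 0 ∧ ∑ i, Y i (v i) = z := by
      intro z hz
      refine Submodule.span_induction ?_ ?_ ?_ ?_ hz
      · rintro z ⟨p, u, hp, rfl⟩
        refine ⟨fun i => p i • u, ?_, ?_⟩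
        · simp only [smul_smul]
          rw [← Finset.sum_smul]
          have : ∑ i, q i * p i = 0 := by
            rw [← hp]
            exact Finset.sum_congr rfl fun i _ => mul_comm _ _
          rw [this, zero_smul]
        · simp only [map_smul]
      · exact ⟨0, by simp, by simp⟩
      · rintro x y _ _ ⟨v, hv, rfl⟩ ⟨v', hv', rfl⟩
        refine ⟨v + v', ?_, ?_⟩
        · simp only [Pi.add_apply, smul_add, Finset.sum_add_distrib, hv, hv', add_zero]
        · simp only [Pi.add_apply, map_add, Finset.sum_add_distrib]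
      · rintro a x _ ⟨v, hv, rfl⟩
        refine ⟨a • v, ?_, ?_⟩
        · have : ∑ i, q i • (a • v) i = a • ∑ i, q i • v i := by
            rw [Finset.smul_sum]
            exact Finset.sum_congr rfl fun i _ => by rw [Pi.smul_apply, smul_comm]
          rw [this, hv, smul_zero]
        · simp only [Pi.smul_apply, map_smul, Finset.smul_sum]
    obtain ⟨v, hv1, hv2⟩ := key _ (hS q hq (b₂.equivFun.symm w))
    refine ⟨fun i => b₁.equivFun (v i), ?_, ?_⟩
    · have := congrArg b₁.equivFun hv1
      rw [map_sum, map_zero] at this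
      rw [← this]
      exact Finset.sum_congr rfl fun i _ => (map_smul _ _ _).symm
    · have := congrArg b₂.equivFun hv2
      rw [map_sum, LinearEquiv.apply_symm_apply] at this
      rw [← this]
      refine Finset.sum_congr rfl fun i _ => ?_
      exact LinearMap.toMatrix_mulVec_repr b₁ b₂ (Y i) (v i)

end Pool.EG3
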