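import Pool.Agent.H45.EG3.S2

/-!
# EG3, row RKF: the rank of the homology
-/

set_option autoImplicit false

namespace Pool.EG3

open MvPolynomial Pool.EGH

namespace RKF

variable {R : Type} [CommRing R] [IsDomain R] [IsNoetherianRing R]

theorem ker_rank {n m : ℕ} (B : Matrix (Fin m) (Fin n) R)
    (hd : ∃ d : R, d ≠ 0 ∧ ∀ e, ∃ v, B.mulVec v = d • e) :
    Module.finrank R (LinearMap.ker B.mulVecLin) + m = n := by
  have h1 := (LinearMap.ker B.mulVecLin).finrank_quotient_add_finrank
  rw [LinearEquiv.finrank_eq B.mulVecLin.quotKerEquivRange, Module.finrank_fin_fun] at h1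
  have h2 : Module.finrank R (LinearMap.range B.mulVecLin) ≤ m := by
    have := Submodule.finrank_le (LinearMap.range B.mulVecLin)
    rwa [Module.finrank_fin_fun] at this
  have h3 : m ≤ Module.finrank R (LinearMap.range B.mulVecLin) := by
    obtain ⟨d, hd0, hd⟩ := hd
    let f : (Fin m → R) →ₗ[R] LinearMap.range B.mulVecLin :=
      LinearMap.codRestrict _ (d • LinearMap.id) (fun e => by
        obtain ⟨v, hv⟩ := hd e
        exact ⟨v, by simpa using hv⟩)
    have hf : Function.Injective f := by
      intro x y hxy
      have h := congrArg Subtype.val hxy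
      funext i
      have h' := congrFun h i
      simp only [f, LinearMap.codRestrict_apply, LinearMap.smul_apply, LinearMap.id_coe, id,
        Pi.smul_apply, smul_eq_mul] at h'
      exact mul_left_cancel₀ hd0 h'
    have := LinearMap.finrank_le_finrank_of_injective hf
    rwa [Module.finrank_fin_fun] at this
  omega

end RKF

theorem t_rkf : RKFStmt := by
  intro K _ n₀ n₂ A B hBA hA hB
  have hrk := RKF.ker_rank B hB
  have hAB : ∀ v, B.mulVec (A.mulVec v) = 0 := by
    intro v
    rw [Matrix.mulVec_mulVec, hBA, Matrix.zero_mulVec]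
  refine ⟨?_, ?_⟩
  · by_contra hcon
    push Not at hcon
    obtain ⟨f, hf⟩ := exists_linearIndependent_of_le_finrank
      (R := PR K 3) (M := LinearMap.ker B.mulVecLin) (n := n₀ + 1) (by omega)
    have h1 : ∀ i, ∃ (c : PR K 3) (v : Fin n₀ → PR K 3),
        c • ((f i : LinearMap.ker B.mulVecLin) : Fin (n₀ + n₂ + 1) → PR K 3) = A.mulVec v ∧
          c ≠ 0 := by
      intro i
      exact hcon (f i) (by
        have := (f i).2
        rwa [LinearMap.mem_ker, Matrix.mulVecLin_apply] at this)
    choose c v hcv hc using h1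
    have h2 : ¬ LinearIndependent (PR K 3) v := by
      intro h
      have := h.fintype_card_le_finrank
      rw [Module.finrank_fin_fun, Fintype.card_fin] at this
      omega
    rw [Fintype.not_linearIndependent_iff] at h2
    obtain ⟨g, hg, i, hi⟩ := h2
    rw [Fintype.linearIndependent_iff] at hf
    have h3 := hf (fun i => g i * c i) (by
      apply Subtype.ext
      rw [AddSubmonoidClass.coe_finset_sum]
      have h4 : ∀ j, (((g j * c j) • f j : LinearMap.ker B.mulVecLin) :
          Fin (n₀ + n₂ + 1) → PR K 3) = A.mulVec (g j • v j) := by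
        intro j
        rw [Matrix.mulVec_smul, ← hcv j, smul_smul]
        rfl
      rw [Finset.sum_congr rfl (fun j _ => h4 j)]
      have h5 := congrArg A.mulVec hg
      rw [Matrix.mulVec_zero] at h5
      rw [show (((0 : LinearMap.ker B.mulVecLin)) : Fin (n₀ + n₂ + 1) → PR K 3) = 0 from rfl,
        ← h5]
      exact (map_sum A.mulVecLin _ _).symm) i
    exact mul_ne_zero hi (hc i) h3
  · intro ω κ hω hκ hind
    let u : Fin n₀ ⊕ Fin 2 → LinearMap.ker B.mulVecLin :=
      Sum.elim (fun i => ⟨A.mulVec (Pi.single i 1), by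
        rw [LinearMap.mem_ker, Matrix.mulVecLin_apply, hAB]⟩)
        ![⟨ω, by rw [LinearMap.mem_ker, Matrix.mulVecLin_apply, hω]⟩,
          ⟨κ, by rw [LinearMap.mem_ker, Matrix.mulVecLin_apply, hκ]⟩]
    have h2 : ¬ LinearIndependent (PR K 3) u := by
      intro h
      have := h.fintype_card_le_finrank
      rw [Fintype.card_sum, Fintype.card_fin, Fintype.card_fin] at this
      omega
    rw [Fintype.not_linearIndependent_iff] at h2
    obtain ⟨g, hg, i, hi⟩ := h2
    rw [Fintype.sum_sum_type, Fin.sum_univ_two] at hg
    have h3 := congrArg (Subtype.val) hg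
    have h4 : A.mulVec (fun i => g (Sum.inl i)) + (g (Sum.inr 0) • ω + g (Sum.inr 1) • κ) = 0 := by
      refine Eq.trans ?_ h3
      simp only [u, Sum.elim_inl, Sum.elim_inr, Submodule.coe_add, Submodule.coe_smul,
        AddSubmonoidClass.coe_finset_sum, Matrix.cons_val_zero, Matrix.cons_val_one]
      congr 1
      funext j
      simp only [Finset.sum_apply, Pi.smul_apply, smul_eq_mul, Matrix.mulVec, dotProduct]
      refine Finset.sum_congr rfl fun x _ => ?_
      rw [Finset.sum_eq_single x]
      · rw [Pi.single_eq_same]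
        ring
      · intro y _ hy
        rw [Pi.single_eq_of_ne hy, mul_zero]
      · intro h
        exact absurd (Finset.mem_univ _) h
    refine ⟨g (Sum.inr 1), -g (Sum.inr 0), -(fun i => g (Sum.inl i)), ?_, ?_⟩
    · intro hb
      rw [hb, zero_smul, add_zero] at h4
      have h5 := hind (g (Sum.inr 0)) (-(fun i => g (Sum.inl i))) (by
        rw [Matrix.mulVec_neg]
        exact (neg_eq_of_add_eq_zero_right h4).symm)
      rw [h5, zero_smul, add_zero] at h4
      have h6 := hA _ h4
      rcases i with i | i
      · exact hi (congrFun h6 i)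
      · fin_cases i
        · exact hi h5
        · exact hi hb
    · rw [Matrix.mulVec_neg, neg_smul, ← sub_eq_zero, ← h4]
      abel

end Pool.EG3
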